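import Mathlib

/-!
Definitions for the polynomials `P_{01r}` of Sills and Zeilberger, copied from the problem file.
-/

namespace Pool.Agent.MP_dbc085_nt

open scoped Nat

/-- `s_j(x)`: the polynomial with `s_j(N) = 1^j + ⋯ + N^j` for all integers `N ≥ 0`
(it exists and is unique, see `powerSum_spec` and `powerSum_unique`). -/
noncomputable def powerSum (j : ℕ) : Polynomial ℚ :=
  Classical.epsilon fun p : Polynomial ℚ =>
    ∀ N : ℕ, p.eval (N : ℚ) = ∑ i ∈ Finset.Icc 1 N, (i : ℚ) ^ j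

/-- `β(z) = ∑ B_j z^j / j!`, with Mathlib's Bernoulli numbers (`B_1 = -1/2`), as a power series
in `z` with coefficients in `ℚ[x]`. -/
noncomputable def beta : PowerSeries (Polynomial ℚ) :=
  PowerSeries.mk fun j => Polynomial.C (bernoulli j / (j ! : ℚ))

/-- The exponent `∑_{j=1}^r (-1)^{j+1} B_j / (j * j!) * (s_j(x) - x) * z^j`. -/
noncomputable def exponent (r : ℕ) : PowerSeries (Polynomial ℚ) :=
  ∑ j ∈ Finset.Icc 1 r,
    PowerSeries.C (Polynomial.C ((-1) ^ (j + 1) * bernoulli j / ((j : ℚ) * (j ! : ℚ))) *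
      (powerSum j - Polynomial.X)) * PowerSeries.X ^ j

/-- `P_{01r}(x) = (-4)^r r! [z^r] e^z β(z)^{r+1} exp(exponent r)`. -/
noncomputable def P01 (r : ℕ) : Polynomial ℚ :=
  Polynomial.C ((-4) ^ r * (r ! : ℚ)) *
    PowerSeries.coeff r
      (PowerSeries.exp (Polynomial ℚ) * beta ^ (r + 1) *
        (PowerSeries.exp (Polynomial ℚ)).subst (exponent r))

/-- Faulhaber's polynomial, a witness for the existence of `s_j`. -/
theorem powerSum_exists (j : ℕ) : ∃ p : Polynomial ℚ,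
    ∀ N : ℕ, p.eval (N : ℚ) = ∑ i ∈ Finset.Icc 1 N, (i : ℚ) ^ j := by
  refine ⟨∑ i ∈ Finset.range (j + 1),
    Polynomial.monomial (j + 1 - i) (bernoulli' i * ((j + 1).choose i : ℚ) / (j + 1)), fun N => ?_⟩
  have h := sum_Ico_pow N j
  rw [← Finset.Ico_add_one_right_eq_Icc, h, Polynomial.eval_finsetSum]
  refine Finset.sum_congr rfl fun i _ => ?_
  rw [Polynomial.eval_monomial]
  ring

theorem powerSum_spec (j N : ℕ) :
    (powerSum j).eval (N : ℚ) = ∑ i ∈ Finset.Icc 1 N, (i : ℚ) ^ j :=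
  Classical.epsilon_spec (powerSum_exists j) N

theorem powerSum_unique (j : ℕ) (p : Polynomial ℚ)
    (hp : ∀ N : ℕ, p.eval (N : ℚ) = ∑ i ∈ Finset.Icc 1 N, (i : ℚ) ^ j) : powerSum j = p := by
  apply Polynomial.eq_of_infinite_eval_eq
  refine Set.Infinite.mono (s := Set.range ((↑) : ℕ → ℚ)) ?_
    (Set.infinite_range_of_injective Nat.cast_injective)
  rintro _ ⟨N, rfl⟩
  simp [hp, powerSum_spec]

end Pool.Agent.MP_dbc085_nt
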